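import Pool.Agent.X186.IC.Clos
import Pool.Agent.Results.MP_b7f2ce_co.CutwidthSix

set_option autoImplicit false

/-!
Three 2-factors covering a cubic graph of a class of graphs closed under identification of vertices,
edge-disjoint unions and sums along cuts with at most three edges.

A finite graph, parallel edges allowed, has the vertex set `V` and the edge set `E`; the ends of the
edge `e` are `src e` and `dst e`. The class is the class `Closure` of
`Pool/Agent/Results/MP_40718a_co/CoverClosure.lean`. The argument after the covers by six even
subgraphs is that of the starting file CutwidthSix on this problem.
-/

open Finset

namespace Pool.Agent.Results.MP_b7f2ce_co.CoverClosure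

open Pool.Agent.X186.IC (six_closure)
open Pool.Agent.Results.MP_40718a_co.CoverClosure (Closure)

/-- the edges at the vertex `v` -/
def star {V E : Type} [DecidableEq V] [Fintype E] (src dst : E → V) (v : V) : Finset E :=
  univ.filter fun e => src e = v ∨ dst e = v

/-- Let `G` be a finite cubic graph without loops of the class `Closure`: the least class that contains all unions of two
even subgraphs and all bridgeless graphs of treewidth at most four, of carving width at most five or
of cutwidth at most six, and that is closed under identification of vertices, edge-disjoint unions
(on a common set of vertices) and sums along cuts with at most three edges. Let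
`x` and `y` be vertices. Then `G` has three 2-factors which cover all edges such that every edge at
`x` or `y` is in exactly two of them. -/
theorem result (V E : Type) [Fintype V] [DecidableEq V] [Fintype E] [DecidableEq E]
    (src dst : E → V) (hl : ∀ e, src e ≠ dst e) (hc : ∀ v, (star src dst v).card = 3)
    (h : Closure src dst) (x y : V) :
    ∃ C : Fin 3 → Finset E, (∀ i v, (C i ∩ star src dst v).card = 2) ∧ (∀ e, ∃ i, e ∈ C i) ∧
      ∀ e ∈ star src dst x ∪ star src dst y, (univ.filter fun i => e ∈ C i).card = 2 := by
  obtain ⟨C, hC, h4⟩ := six_closure h
  exact CutwidthSix.aux hl hc hC h4 x y

end Pool.Agent.Results.MP_b7f2ce_co.CoverClosure
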